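import Pool.Agent.helper66.LIN.Spec

set_option autoImplicit false

namespace LSH.Lin

open LSH

/-- the reflected edge -/
def GRE_rf (e : Edge) : Edge := ⟨fy e.a, fy e.b, e.h⟩

theorem GRE_fyfy (z : Pt) : fy (fy z) = z := by
  unfold fy
  simp

theorem GRE_inj : Function.Injective fy := fun a b h => by
  rw [← GRE_fyfy a, h, GRE_fyfy]

theorem GRE_uIcc (x a b : ℝ) : x ∈ Set.uIcc (-a) (-b) ↔ -x ∈ Set.uIcc a b := by
  rw [Set.mem_uIcc, Set.mem_uIcc]
  constructor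
  · rintro (⟨h1, h2⟩ | ⟨h1, h2⟩)
    · exact Or.inr ⟨by linarith, by linarith⟩
    · exact Or.inl ⟨by linarith, by linarith⟩
  · rintro (⟨h1, h2⟩ | ⟨h1, h2⟩)
    · exact Or.inr ⟨by linarith, by linarith⟩
    · exact Or.inl ⟨by linarith, by linarith⟩

theorem GRE_on (e : Edge) (z : Pt) (h : (GRE_rf e).on z) : e.on (fy z) := by
  obtain ⟨a, b, hh⟩ := e
  unfold Edge.on GRE_rf fy at h
  unfold Edge.on fy
  simp only at h ⊢
  rcases h with ⟨h1, (⟨h2, h3⟩ | ⟨h2, h3⟩)⟩ | ⟨h1, (⟨h2, h3⟩ | ⟨h2, h3⟩)⟩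
  · exact Or.inl ⟨h1, Or.inl ⟨by linarith, h3⟩⟩
  · exact Or.inl ⟨h1, Or.inr ⟨h2, (GRE_uIcc _ _ _).mp h3⟩⟩
  · exact Or.inr ⟨h1, Or.inl ⟨h2, (GRE_uIcc _ _ _).mp h3⟩⟩
  · exact Or.inr ⟨h1, Or.inr ⟨by linarith, h3⟩⟩

theorem GRE_nc (e f : Edge) (h : NC e f) : NC (GRE_rf e) (GRE_rf f) := by
  intro z h1 h2
  obtain ⟨h3, h4⟩ := h (fy z) (GRE_on e z h1) (GRE_on f z h2)
  have key : ∀ w : Pt, fy z = w → z = fy w := fun w hw => by rw [← hw, GRE_fyfy]
  exact ⟨h3.imp (key _) (key _), h4.imp (key _) (key _)⟩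

theorem GRE_root (G : GT) : (G.map fy).root = fy G.root := by
  cases G <;> rfl

theorem GRE_pts (G : GT) : (G.map fy).pts = G.pts.map fy := by
  induction G with
  | leaf x => simp [GT.map, GT.pts]
  | un x t => simp [GT.map, GT.pts]
  | bl x s h g ih => simp [GT.map, GT.pts, ih]
  | br x h g t ih => simp [GT.map, GT.pts, ih]
  | bb x h g k g' ih ih' => simp [GT.map, GT.pts, ih, ih']

theorem GRE_shape (G : GT) : (G.map fy).shape = G.shape := by
  induction G with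
  | leaf x => rfl
  | un x t => rfl
  | bl x s h g ih => simp [GT.map, GT.shape, ih]
  | br x h g t ih => simp [GT.map, GT.shape, ih]
  | bb x h g k g' ih ih' => simp [GT.map, GT.shape, ih, ih']

theorem GRE_edges (G : GT) : (G.map fy).edges = G.edges.map GRE_rf := by
  induction G with
  | leaf x => rfl
  | un x t => rfl
  | bl x s h g ih => simp [GT.map, GT.edges, ih, GRE_root, GRE_rf]
  | br x h g t ih => simp [GT.map, GT.edges, ih, GRE_root, GRE_rf]
  | bb x h g k g' ih ih' => simp [GT.map, GT.edges, ih, ih', GRE_root, GRE_rf]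

theorem GRE_pend (G : GT) : (G.map fy).pend = G.pend.map (fun i => (fy i.1, i.2)) := by
  induction G with
  | leaf x => rfl
  | un x t => simp [GT.map, GT.pend]
  | bl x s h g ih => simp [GT.map, GT.pend, ih]
  | br x h g t ih => simp [GT.map, GT.pend, ih]
  | bb x h g k g' ih ih' => simp [GT.map, GT.pend, ih, ih']

theorem GRE_ray (G : GT) (E : List Edge)
    (h : ∀ i ∈ G.pend, ∀ e ∈ E, ∀ z, e.on z → z.2 = i.1.2 → z.1 ≤ i.1.1) :
    ∀ i ∈ (G.map fy).pend, ∀ e ∈ E.map GRE_rf, ∀ z, e.on z → z.2 = i.1.2 → z.1 ≤ i.1.1 := by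
  intro i hi e he z hz hzi
  rw [GRE_pend] at hi
  obtain ⟨i0, hi0, rfl⟩ := Multiset.mem_map.mp hi
  obtain ⟨e0, he0, rfl⟩ := List.mem_map.mp he
  have h1 : (fy z).2 = i0.1.2 := by
    unfold fy at hzi ⊢
    simp only at hzi ⊢
    linarith
  exact h i0 hi0 e0 he0 (fy z) (GRE_on e0 z hz) h1

theorem GRE_cpts (C : Finset Pt) (G : GT) (h : ∀ p ∈ G.pts, p ∈ C) :
    ∀ p ∈ (G.map fy).pts, p ∈ C.image fy := by
  intro p hp
  rw [GRE_pts] at hp
  obtain ⟨p0, hp0, rfl⟩ := Multiset.mem_map.mp hp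
  exact Finset.mem_image_of_mem fy (h p0 hp0)

theorem GRE_pw (E : List Edge) (h : E.Pairwise NC) : (E.map GRE_rf).Pairwise NC := by
  rw [List.pairwise_map]
  exact h.imp (fun {a b} hab => GRE_nc a b hab)

theorem GRE : GRE_stmt := by
  refine ⟨fun G => ⟨GRE_root G, GRE_pts G⟩, ?_, ?_⟩
  · intro t C G hG
    refine ⟨(GRE_shape G).trans hG.shape, GRE_cpts C G hG.pts, ?_, ?_, ?_⟩
    · rw [GRE_pts]
      exact hG.nodup.map GRE_inj
    · rw [GRE_edges]
      exact GRE_pw _ hG.nc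
    · rw [GRE_edges]
      exact GRE_ray G _ hG.ray
  · intro u t C G hG
    have hatt : attG (fy u) true (G.map fy) = (attG u true G).map GRE_rf := by
      unfold attG
      rw [GRE_edges, GRE_root, List.map_cons]
      rfl
    refine ⟨(GRE_shape G).trans hG.shape, GRE_cpts C G hG.pts, ?_, ?_, ?_⟩
    · rw [GRE_pts]
      exact hG.nodup.map GRE_inj
    · rw [hatt]
      exact GRE_pw _ hG.nc
    · rw [hatt]
      exact GRE_ray G _ hG.ray

end LSH.Lin
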